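import Mathlib

set_option autoImplicit false

namespace Pool.Agent.Results.MP_361790_al.Counter

/-- The product `μ` is anticommutative and satisfies the CD identity. -/
def CD {B : Type} [AddCommGroup B] (μ : B → B → B) : Prop :=
  (∀ x, μ x x = 0) ∧ ∀ x y a b, μ (μ (μ x y) a) b - μ (μ (μ x y) b) a - μ (μ (μ x a) b) y +
    μ (μ (μ x b) a) y + μ (μ (μ y a) b) x - μ (μ (μ y b) a) x = 0

theorem result (K : Type) [Field K] (h : (2 : K) ≠ 0) :
    ∃ μ : (Fin 5 → K) →ₗ[K] (Fin 5 → K) →ₗ[K] Fin 5 → K, CD (fun x y => μ x y) ∧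
      ∀ (M : Type) [AddCommGroup M] [Module K M] (ρ : (Fin 5 → K) →ₗ[K] M →ₗ[K] M),
        CD (fun p q : (Fin 5 → K) × M => (μ p.1 q.1, ρ p.1 q.2 - ρ q.1 p.2)) →
        ∃ a ≠ 0, ∀ m, ρ a m = 0 := by
  refine ⟨LinearMap.mk₂ K (fun x y => (x 0 * y 1 - x 1 * y 0) • Pi.single 3 1 +
    (x 3 * y 2 - x 2 * y 3) • Pi.single 4 1) (fun _ _ _ => by simp only [Pi.add_apply]; module)
    (fun _ _ _ => by simp only [Pi.smul_apply, smul_eq_mul]; module)
    (fun _ _ _ => by simp only [Pi.add_apply]; module)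
    (fun _ _ _ => by simp only [Pi.smul_apply, smul_eq_mul]; module),
    ⟨fun x => by simp [mul_comm], fun x y a b => by simp⟩,
    fun M _ _ ρ H => ⟨Pi.single 4 1, by simp, fun m => ?_⟩⟩
  have a := congrArg Prod.snd (H.2 (Pi.single 0 1, 0) (0, m) (Pi.single 1 1, 0) (Pi.single 2 1, 0))
  have b := congrArg Prod.snd (H.2 (Pi.single 1 1, 0) (0, m) (Pi.single 0 1, 0) (Pi.single 2 1, 0))
  have c := congrArg Prod.snd (H.2 (Pi.single 2 1, 0) (0, m) (Pi.single 0 1, 0) (Pi.single 1 1, 0))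
  simp at a b c
  refine (smul_eq_zero_iff_right h).1 ?_
  linear_combination (norm := module) b - a - c

end Pool.Agent.Results.MP_361790_al.Counter
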